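import Mathlib

set_option autoImplicit false
set_option maxHeartbeats 400000

open Filter

namespace Pool.Agent.Results.MP_019b27_al.NoCompleteExtension

universe u

/-- lattice terms in countably many variables -/
inductive Tm where
  | var (n : ℕ) : Tm
  | meet (a b : Tm) : Tm
  | join (a b : Tm) : Tm

/-- value of a term under an assignment -/
def Tm.eval {L : Type u} [Lattice L] (v : ℕ → L) : Tm → L
  | .var n => v n
  | .meet a b => a.eval v ⊓ b.eval v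
  | .join a b => a.eval v ⊔ b.eval v

/-- `L` satisfies the quasi-identity with premises `P` and conclusion `c` -/
def Holds (L : Type u) [Lattice L] (P : List (Tm × Tm)) (c : Tm × Tm) : Prop :=
  ∀ v : ℕ → L, (∀ p ∈ P, p.1.eval v = p.2.eval v) → c.1.eval v = c.2.eval v

theorem eval_germ {β : Type} [Lattice β] (w : ℕ → ℕ → β) (t : Tm) :
    t.eval (fun i => (Germ.ofFun (w i) : Germ atTop β)) =
      Germ.ofFun (fun k => t.eval fun i => w i k) := by
  induction t with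
  | var n => rfl
  | meet a b ha hb => rw [Tm.eval, ha, hb]; rfl
  | join a b ha hb => rw [Tm.eval, ha, hb]; rfl

theorem holds_germ {β : Type} [Lattice β] (P : List (Tm × Tm)) (c : Tm × Tm) (h : Holds β P c) :
    Holds (Germ (atTop : Filter ℕ) β) P c := by
  intro v hv
  choose w hw using fun i => Quotient.exists_rep (v i)
  have e : v = fun i => (w i : Germ atTop β) := funext fun i => (hw i).symm
  subst e
  simp only [eval_germ, Germ.coe_eq] at hv ⊢
  have : ∀ᶠ k in atTop, ∀ p ∈ {p | p ∈ P}, p.1.eval (fun i => w i k) = p.2.eval fun i => w i k :=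
    (eventually_all_finite (List.finite_toSet P)).2 hv
  filter_upwards [this] with k hk using h _ hk

open Tm in
def modLaw : Tm × Tm :=
  (meet (join (meet (var 0) (var 2)) (var 1)) (var 2),
    join (meet (var 0) (var 2)) (meet (var 1) (var 2)))

theorem mod_iff (L : Type u) [Lattice L] : IsModularLattice L ↔ Holds L [] modLaw := by
  constructor
  · intro _ v _
    exact sup_inf_assoc_of_le _ inf_le_right
  · intro h
    refine ⟨fun {x} y {z} hxz => ?_⟩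
    have := h (fun i => if i = 0 then x else if i = 1 then y else z) (by simp)
    simp only [modLaw, Tm.eval] at this
    simp [inf_eq_left.2 hxz] at this
    exact this.le

def tau {L : Type u} [Lattice L] (X Y G D x : L) : L := (((x ⊔ G) ⊓ Y) ⊔ D) ⊓ X

open Tm in
def tauT : Tm := meet (join (meet (join (var 4) (var 2)) (var 1)) (var 3)) (var 0)

open Tm in
def prem : List (Tm × Tm) :=
  [(meet (var 0) (var 2), meet (var 1) (var 2)), (join (var 0) (var 2), join (var 1) (var 2)),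
   (meet (var 1) (var 3), meet (var 0) (var 3)), (join (var 1) (var 3), join (var 0) (var 3)),
   (meet (var 1) (var 3), meet (var 1) (var 2)),
   (meet (meet (var 0) (var 2)) (var 4), meet (var 0) (var 2)),
   (meet (var 4) (var 0), var 4), (meet tauT (var 4), tauT)]

theorem psi_iff (L : Type u) [Lattice L] : Holds L prem (tauT, .var 4) ↔
    ∀ X Y G D x : L, X ⊓ G = Y ⊓ G → X ⊔ G = Y ⊔ G → Y ⊓ D = X ⊓ D → Y ⊔ D = X ⊔ D →
      Y ⊓ D = Y ⊓ G → X ⊓ G ≤ x → x ≤ X → tau X Y G D x ≤ x → tau X Y G D x = x := by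
  constructor
  · intro h X Y G D x h1 h2 h3 h4 h5 h6 h7 h8
    refine h (fun i => match i with | 0 => X | 1 => Y | 2 => G | 3 => D | _ => x) ?_
    simp only [prem, List.mem_cons, List.not_mem_nil, or_false, forall_eq_or_imp, forall_eq]
    exact ⟨h1, h2, h3, h4, h5, inf_eq_left.2 h6, inf_eq_left.2 h7, inf_eq_left.2 h8⟩
  · intro h v hv
    simp only [prem, List.mem_cons, List.not_mem_nil, or_false, forall_eq_or_imp, forall_eq] at hv
    obtain ⟨h1, h2, h3, h4, h5, h6, h7, h8⟩ := hv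
    exact h _ _ _ _ _ h1 h2 h3 h4 h5 (inf_eq_left.1 h6) (inf_eq_left.1 h7) (inf_eq_left.1 h8)

theorem val_persp {L : Type} [Lattice L] (v : L → ℕ) (hv : ∀ a b, v (a ⊔ b) + v (a ⊓ b) = v a + v b)
    (X Y G x : L) (h1 : X ⊓ G = Y ⊓ G) (h2 : X ⊔ G = Y ⊔ G) (h6 : X ⊓ G ≤ x) (h7 : x ≤ X) :
    v ((x ⊔ G) ⊓ Y) = v x := by
  have e1 : x ⊓ G = Y ⊓ G := by
    rw [← h1]; exact le_antisymm (inf_le_inf_right _ h7) (le_inf h6 inf_le_right)
  have e2 : x ⊔ G ⊔ Y = Y ⊔ G := by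
    refine le_antisymm (sup_le (sup_le ?_ le_sup_right) le_sup_left)
      (sup_le le_sup_right (le_sup_of_le_left le_sup_right))
    rw [← h2]; exact le_sup_of_le_left h7
  have a1 := hv x G
  have a2 := hv (x ⊔ G) Y
  have a3 := hv Y G
  rw [e1] at a1
  rw [e2] at a2
  omega

theorem psi_of_val {L : Type} [Lattice L] (v : L → ℕ)
    (hv : ∀ a b, v (a ⊔ b) + v (a ⊓ b) = v a + v b) (hs : ∀ a b, a ≤ b → v a = v b → a = b) :
    Holds L prem (tauT, .var 4) := by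
  rw [psi_iff]
  intro X Y G D x h1 h2 h3 h4 h5 h6 h7 h8
  refine hs _ _ h8 ?_
  rw [tau, val_persp v hv Y X D _ h3 h4 ?_ inf_le_right, val_persp v hv X Y G x h1 h2 h6 h7]
  rw [h5]
  exact le_inf (inf_le_of_right_le le_sup_right) inf_le_left

theorem persp {K : Type u} [CompleteLattice K] [IsModularLattice K] (Y G : K) (s : ℕ → K)
    (hs : ∀ m, s m ≤ Y ⊔ G) : ((⨆ m, s m) ⊔ G) ⊓ Y ≤ ⨆ m, (s m ⊔ G) ⊓ Y := by
  set y := ⨆ m, (s m ⊔ G) ⊓ Y with hy
  have hyY : y ≤ Y := iSup_le fun _ => inf_le_right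
  have hm : ∀ m, (s m ⊔ G) ⊓ Y ≤ y := fun m => le_iSup (fun m => (s m ⊔ G) ⊓ Y) m
  have h1 : ∀ m, s m ≤ y ⊔ G := by
    intro m
    calc s m ≤ (G ⊔ Y) ⊓ (s m ⊔ G) := le_inf (by rw [sup_comm]; exact hs m) le_sup_left
      _ ≤ G ⊔ Y ⊓ (s m ⊔ G) := (sup_inf_assoc_of_le _ le_sup_right).le
      _ ≤ y ⊔ G := sup_le le_sup_right (le_sup_of_le_left (by rw [inf_comm]; exact hm m))
  calc ((⨆ m, s m) ⊔ G) ⊓ Y ≤ (y ⊔ G) ⊓ Y :=
        inf_le_inf_right _ (sup_le (iSup_le h1) le_sup_right)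
    _ ≤ y ⊔ G ⊓ Y := (sup_inf_assoc_of_le _ hyY).le
    _ ≤ y := sup_le le_rfl ((inf_le_inf_right _ le_sup_right).trans (hm 0))

theorem tau_mono {L : Type u} [Lattice L] (X Y G D x y : L) (h : x ≤ y) :
    tau X Y G D x ≤ tau X Y G D y :=
  inf_le_inf_right _ (sup_le_sup_right (inf_le_inf_right _ (sup_le_sup_right h _)) _)

theorem abstract {L : Type} [Lattice L] {K : Type u} [CompleteLattice K] [IsModularLattice K]
    (hK : Holds K prem (tauT, .var 4)) (f : LatticeHom L K) (hf : Function.Injective f)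
    (X Y G D d : L) (a : ℕ → L) (h1 : X ⊓ G = Y ⊓ G) (h2 : X ⊔ G = Y ⊔ G) (h3 : Y ⊓ D = X ⊓ D)
    (h4 : Y ⊔ D = X ⊔ D) (h5 : Y ⊓ D = Y ⊓ G) (h6 : X ⊓ G ≤ a 0) (h7 : ∀ m, a m ≤ X)
    (h8 : ∀ m, tau X Y G D (a m) ≤ a (m + 1)) (h9 : ∀ m, a m ≤ d) :
    a 1 ≤ tau X Y G D d := by
  have hm : Monotone f := OrderHomClass.mono f
  have ht : ∀ x, f (tau X Y G D x) = tau (f X) (f Y) (f G) (f D) (f x) := by
    intro x; simp only [tau, InfHomClass.map_inf, SupHomClass.map_sup]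
  have g1 := congrArg f h1
  have g2 := congrArg f h2
  have g3 := congrArg f h3
  have g4 := congrArg f h4
  have g5 := congrArg f h5
  have g6 := hm h6
  simp only [InfHomClass.map_inf, SupHomClass.map_sup] at g1 g2 g3 g4 g5 g6
  have hle : ∀ m, f (a m) ≤ ⨆ m, f (a m) := fun m => le_iSup (fun m => f (a m)) m
  have e := (psi_iff K).1 hK (f X) (f Y) (f G) (f D) (⨆ m, f (a m)) g1 g2 g3 g4 g5
    (g6.trans (hle 0)) (iSup_le fun m => hm (h7 m)) (by
      have p1 := persp (f Y) (f G) (fun m => f (a m))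
        (fun m => by rw [← g2]; exact le_sup_of_le_left (hm (h7 m)))
      have p2 := persp (f X) (f D) (fun m => (f (a m) ⊔ f G) ⊓ f Y)
        (fun m => by rw [← g4]; exact le_sup_of_le_left inf_le_right)
      refine ((inf_le_inf_right _ (sup_le_sup_right p1 _)).trans p2).trans (iSup_le fun m => ?_)
      exact (ht (a m)).symm.le.trans ((hm (h8 m)).trans (hle _)))
  have : f (a 1) ≤ f (tau X Y G D d) := by
    rw [ht]
    exact (hle 1).trans (e.symm.le.trans (tau_mono _ _ _ _ _ _ (iSup_le fun m => hm (h9 m))))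
  rw [← inf_eq_left, ← InfHomClass.map_inf] at this
  exact inf_eq_left.1 (hf this)

section Lin
variable {W : Type} [AddCommGroup W] [Module ℚ W]

def gr (A : Submodule ℚ W) (S : W ≃ₗ[ℚ] W) : Submodule ℚ (W × W) where
  carrier := {p | p.1 ∈ A ∧ p.2 = S p.1}
  zero_mem' := ⟨A.zero_mem, by simp⟩
  add_mem' hp hq := ⟨A.add_mem hp.1 hq.1, by simp [hp.2, hq.2]⟩
  smul_mem' c _ hp := ⟨A.smul_mem c hp.1, by simp [hp.2]⟩

theorem mem_gr (A : Submodule ℚ W) (S : W ≃ₗ[ℚ] W) (p : W × W) :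
    p ∈ gr A S ↔ p.1 ∈ A ∧ p.2 = S p.1 := Iff.rfl

theorem gr_le (A : Submodule ℚ W) (S : W ≃ₗ[ℚ] W) (h : ∀ w, S w ∈ A ↔ w ∈ A) :
    gr A S ≤ A.prod A := fun _ hp => ⟨hp.1, by rw [hp.2]; exact (h _).2 hp.1⟩

theorem X_inf (A : Submodule ℚ W) (S : W ≃ₗ[ℚ] W) : A.prod ⊥ ⊓ gr A S = ⊥ := by
  rw [eq_bot_iff]
  rintro ⟨x, y⟩ ⟨⟨-, h2⟩, -, h4⟩
  have h2' : y = 0 := h2
  have h4' : y = S x := h4
  have : x = 0 := by rw [h2'] at h4'; exact (map_eq_zero_iff S S.injective).1 h4'.symm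
  simp [this, h2']

theorem Y_inf (A : Submodule ℚ W) (S : W ≃ₗ[ℚ] W) : (⊥ : Submodule ℚ W).prod A ⊓ gr A S = ⊥ := by
  rw [eq_bot_iff]
  rintro ⟨x, y⟩ ⟨⟨h2, -⟩, -, h4⟩
  have h2' : x = 0 := h2
  have h4' : y = S x := h4
  simp [h4', h2']

theorem X_sup (A : Submodule ℚ W) (S : W ≃ₗ[ℚ] W) (h : ∀ w, S w ∈ A ↔ w ∈ A) :
    A.prod ⊥ ⊔ gr A S = A.prod A := by
  refine le_antisymm (sup_le (Submodule.prod_mono le_rfl bot_le) (gr_le A S h)) ?_
  rintro ⟨x, y⟩ ⟨hx, hy⟩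
  have hy' : S.symm y ∈ A := (h _).1 (by simpa using hy)
  refine Submodule.mem_sup.2 ⟨(x - S.symm y, 0), ⟨A.sub_mem hx hy', rfl⟩, (S.symm y, y),
    ⟨hy', by simp⟩, by simp⟩

theorem Y_sup (A : Submodule ℚ W) (S : W ≃ₗ[ℚ] W) (h : ∀ w, S w ∈ A ↔ w ∈ A) :
    (⊥ : Submodule ℚ W).prod A ⊔ gr A S = A.prod A := by
  refine le_antisymm (sup_le (Submodule.prod_mono bot_le le_rfl) (gr_le A S h)) ?_
  rintro ⟨x, y⟩ ⟨hx, hy⟩
  refine Submodule.mem_sup.2 ⟨(0, y - S x), ⟨rfl, A.sub_mem hy ((h _).2 hx)⟩, (x, S x),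
    ⟨hx, rfl⟩, by simp⟩

theorem tau_mem (A U : Submodule ℚ W) (S : W ≃ₗ[ℚ] W) (p : W × W)
    (hp : p ∈ tau (A.prod ⊥) ((⊥ : Submodule ℚ W).prod A) (gr A S) (gr A 1) (U.prod ⊥)) :
    (∃ u ∈ U, p.1 = S u) ∧ p.2 = 0 := by
  obtain ⟨h1, -, h2⟩ := hp
  obtain ⟨q, ⟨h3, h4, -⟩, r, ⟨-, h5⟩, rfl⟩ := Submodule.mem_sup.1 h1
  obtain ⟨s, ⟨h6, h7⟩, t, ⟨-, h8⟩, rfl⟩ := Submodule.mem_sup.1 h3
  refine ⟨⟨s.1, h6, ?_⟩, h2⟩
  have h2' : s.2 + t.2 + r.2 = 0 := h2
  have h4' : s.1 + t.1 = 0 := h4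
  have h5' : r.2 = r.1 := h5
  have h7' : s.2 = 0 := h7
  change s.1 + t.1 + r.1 = S s.1
  rw [h7', h8, h5', eq_neg_of_add_eq_zero_right h4', map_neg, zero_add] at h2'
  rw [h4', zero_add]
  exact (neg_add_eq_zero.1 h2').symm

end Lin

abbrev W := ℤ → ℚ

def FD : Sublattice (Submodule ℚ (W × W)) where
  carrier := {U | FiniteDimensional ℚ U}
  supClosed' U hU V hV := by
    have : FiniteDimensional ℚ U := hU
    have : FiniteDimensional ℚ V := hV
    exact Submodule.finiteDimensional_sup U V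
  infClosed' U hU V _ := by
    have : FiniteDimensional ℚ U := hU
    exact Submodule.finiteDimensional_inf_left U V

instance (U : FD) : FiniteDimensional ℚ U.1 := U.2

theorem FD_mod : IsModularLattice FD :=
  ⟨fun {x} y {z} h => (sup_inf_assoc_of_le y.1 (show x.1 ≤ z.1 from h)).le⟩

theorem FD_psi : Holds FD prem (tauT, .var 4) :=
  psi_of_val (fun U : FD => Module.finrank ℚ U.1)
    (fun a b => Submodule.finrank_sup_add_finrank_inf_eq a.1 b.1)
    (fun a b h e => Subtype.ext (Submodule.eq_of_le_of_finrank_eq (show a.1 ≤ b.1 from h) e))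

def A (n : ℕ) : Submodule ℚ W :=
  LinearMap.range (LinearMap.funLeft ℚ ℚ (Int.cast : ℤ → ZMod (n + 1)))

instance (n : ℕ) : FiniteDimensional ℚ (A n) := by unfold A; infer_instance

def T : W ≃ₗ[ℚ] W := LinearEquiv.funCongrLeft ℚ ℚ (Equiv.subRight (1 : ℤ))

theorem T_apply (f : W) (j : ℤ) : T f j = f (j - 1) := rfl

theorem T_mem (n : ℕ) (w : W) : T w ∈ A n ↔ w ∈ A n := by
  constructor
  · rintro ⟨g, hg⟩
    refine ⟨fun z => g (z + 1), funext fun j => ?_⟩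
    have := congrFun hg (j + 1)
    simpa [T_apply, LinearMap.funLeft_apply] using this
  · rintro ⟨g, rfl⟩
    refine ⟨fun z => g (z - 1), funext fun j => ?_⟩
    simp [T_apply, LinearMap.funLeft_apply]

def a0 (m n : ℕ) : Submodule ℚ W where
  carrier := {f | f ∈ A n ∧ ∀ j : ℤ, (m : ℤ) ≤ j → j ≤ n → f j = 0}
  zero_mem' := ⟨(A n).zero_mem, fun _ _ _ => rfl⟩
  add_mem' hf hg := ⟨(A n).add_mem hf.1 hg.1, fun j h1 h2 => by simp [hf.2 j h1 h2, hg.2 j h1 h2]⟩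
  smul_mem' c _ hf := ⟨(A n).smul_mem c hf.1, fun j h1 h2 => by simp [hf.2 j h1 h2]⟩

def mk (n : ℕ) (U : Submodule ℚ (W × W)) (h : U ≤ (A n).prod (A n)) : FD :=
  ⟨U, by
    have : FiniteDimensional ℚ ((A n).prod (A n)) := Module.Finite.iff_fg.2
      ((Module.Finite.iff_fg.1 inferInstance).prod (Module.Finite.iff_fg.1 inferInstance))
    exact Submodule.finiteDimensional_of_le h⟩

def sX (n : ℕ) : FD := mk n ((A n).prod ⊥) (Submodule.prod_mono le_rfl bot_le)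
def sY (n : ℕ) : FD := mk n ((⊥ : Submodule ℚ W).prod (A n)) (Submodule.prod_mono bot_le le_rfl)
def sG (n : ℕ) : FD := mk n (gr (A n) T) (gr_le _ _ (T_mem n))
def sD (n : ℕ) : FD := mk n (gr (A n) 1) (gr_le _ _ fun _ => Iff.rfl)
def sa (m n : ℕ) : FD := mk n ((a0 m n).prod ⊥) (Submodule.prod_mono (fun _ h => h.1) bot_le)

theorem final (n : ℕ) : ¬ sa 1 n ≤ tau (sX n) (sY n) (sG n) (sD n) (sa n n) := by
  intro h
  let f : W := fun j => (Pi.single (0 : ZMod (n + 1)) (1 : ℚ) : ZMod (n + 1) → ℚ) (j : ZMod (n + 1))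
  have hf : (f, (0 : W)) ∈ (a0 1 n).prod (⊥ : Submodule ℚ W) := by
    refine ⟨⟨⟨Pi.single 0 1, rfl⟩, fun j h1 h2 => Pi.single_eq_of_ne ?_ _⟩, rfl⟩
    rw [Ne, ZMod.intCast_zmod_eq_zero_iff_dvd]
    intro hd
    have := Int.le_of_dvd (by omega) hd
    omega
  obtain ⟨⟨g, hg, e⟩, -⟩ := tau_mem (A n) (a0 n n) T _ (h hf)
  have := congrFun e (n + 1)
  rw [T_apply, add_sub_cancel_right, hg.2 n le_rfl le_rfl] at this
  have e0 : (((n : ℤ) + 1 : ℤ) : ZMod (n + 1)) = 0 := by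
    exact_mod_cast ZMod.natCast_self (n + 1)
  simp only [f] at this
  rw [e0] at this
  simp at this

theorem result : ∃ (L : Type) (_ : Lattice L), IsModularLattice L ∧
    ∀ (K : Type u) [CompleteLattice K],
      (∀ (P : List (Tm × Tm)) (c : Tm × Tm), Holds L P c → Holds K P c) →
      ∀ f : LatticeHom L K, ¬ Function.Injective f := by
  have hmod := holds_germ _ _ ((mod_iff FD).1 FD_mod)
  refine ⟨Germ (atTop : Filter ℕ) FD, inferInstance, (mod_iff _).2 hmod, fun K _ hK f hf => ?_⟩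
  have := (mod_iff K).2 (hK _ _ hmod)
  have h := abstract (hK _ _ (holds_germ _ _ FD_psi)) f hf (Germ.ofFun sX) (Germ.ofFun sY)
    (Germ.ofFun sG) (Germ.ofFun sD) (Germ.ofFun fun n => sa n n) (fun m => Germ.ofFun (sa m))
    (congrArg Germ.ofFun (funext fun n => Subtype.ext ((X_inf _ _).trans (Y_inf _ _).symm)))
    (congrArg Germ.ofFun (funext fun n => Subtype.ext
      ((X_sup _ _ (T_mem n)).trans (Y_sup _ _ (T_mem n)).symm)))
    (congrArg Germ.ofFun (funext fun n => Subtype.ext ((Y_inf _ _).trans (X_inf _ _).symm)))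
    (congrArg Germ.ofFun (funext fun n => Subtype.ext
      ((Y_sup _ _ fun _ => Iff.rfl).trans (X_sup _ _ fun _ => Iff.rfl).symm)))
    (congrArg Germ.ofFun (funext fun n => Subtype.ext ((Y_inf _ _).trans (Y_inf _ _).symm)))
    (Germ.coe_le.2 (Eventually.of_forall fun n => (X_inf (A n) T).le.trans bot_le))
    (fun m => Germ.coe_le.2 (Eventually.of_forall fun n =>
      Submodule.prod_mono (fun _ h => h.1) le_rfl))
    (fun m => Germ.coe_le.2 (Eventually.of_forall fun n p hp => by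
      obtain ⟨⟨g, hg, e⟩, h2⟩ := tau_mem (A n) (a0 m n) T p hp
      refine ⟨?_, h2⟩
      rw [e]
      exact ⟨(T_mem n g).2 hg.1, fun j h1 h2 => hg.2 (j - 1) (by omega) (by omega)⟩))
    (fun m => Germ.coe_le.2 ((eventually_ge_atTop m).mono fun n hn =>
      Submodule.prod_mono (fun _ h => ⟨h.1, fun j h1 h2 => h.2 j (by omega) h2⟩) le_rfl))
  obtain ⟨n, hn⟩ := (Germ.coe_le.1 h).exists
  exact final n hn

end Pool.Agent.Results.MP_019b27_al.NoCompleteExtension
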